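import Pool.Agent.H61.NVK.TargetsE1

/-!
# Row E_PSH: the value at `1 / 2` of the completed function
-/

set_option autoImplicit false

open MeasureTheory Set Filter NumberField NumberField.InfinitePlace
open Pool.Agent.H65.CM4 Pool.Agent.H61.CM4 Pool.Agent.H61.NVK
open scoped Real nonZeroDivisors

namespace Pool.Agent.H42.NVE_PSH

/-- sums with a condition are sums over the subtype -/
theorem tsum_if {V : Type} (p : V → Prop) [DecidablePred p] (f : V → ℂ) :
    (∑' u : V, if p u then f u else 0) = ∑' u : {u : V // p u}, f u := by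
  have h := tsum_subtype {u | p u} f
  rw [show (∑' u : {u : V // p u}, f u) = ∑' u : ({u | p u} : Set V), f u from rfl, h]
  apply tsum_congr
  intro u
  by_cases hu : p u
  · rw [if_pos hu, Set.indicator_of_mem (by exact hu)]
  · rw [if_neg hu, Set.indicator_of_notMem (by exact hu)]

/-- sums with a condition are sums over the subtype -/
theorem tsum_if' {V : Type} (p : V → Prop) [DecidablePred p] (f : V → ℝ) :
    (∑' u : V, if p u then f u else 0) = ∑' u : {u : V // p u}, f u := by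
  have h := tsum_subtype {u | p u} f
  rw [show (∑' u : {u : V // p u}, f u) = ∑' u : ({u | p u} : Set V), f u from rfl, h]
  apply tsum_congr
  intro u
  by_cases hu : p u
  · rw [if_pos hu, Set.indicator_of_mem (by exact hu)]
  · rw [if_neg hu, Set.indicator_of_notMem (by exact hu)]

/-- the kernel of the line `Re = 2` -/
noncomputable def W (t : ℝ) : ℂ :=
  Complex.exp ((2 + t * Complex.I - 1 / 2) ^ 2) / (2 + t * Complex.I - 1 / 2)

/-- the Dirichlet series of positive numbers on the line is continuous and bounded -/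
theorem ser_cont {ι : Type} (a : ι → ℝ) (ha : ∀ i, 0 < a i)
    (hs : Summable (fun i => (a i) ^ (-2 : ℝ))) :
    Continuous (fun t : ℝ => ∑' i, ((a i : ℝ) : ℂ) ^ (-(2 + t * Complex.I))) ∧
    ∀ t : ℝ, ‖∑' i, ((a i : ℝ) : ℂ) ^ (-(2 + t * Complex.I))‖ ≤ ∑' i, (a i) ^ (-2 : ℝ) := by
  have hn : ∀ i (t : ℝ), ‖((a i : ℝ) : ℂ) ^ (-(2 + t * Complex.I))‖ = (a i) ^ (-2 : ℝ) := by
    intro i t
    rw [Complex.norm_cpow_eq_rpow_re_of_pos (ha i)]
    congr 1
    simp
  constructor
  · apply continuous_tsum (u := fun i => (a i) ^ (-2 : ℝ)) _ hs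
    · intro i t
      exact (hn i t).le
    · intro i
      apply Continuous.const_cpow
      · fun_prop
      · left
        exact_mod_cast (ha i).ne'
  · intro t
    exact tsum_of_norm_bounded hs.hasSum (fun i => (hn i t).le)

theorem pf_PSH (hEZA : T_EZA) (hSKC : T_SKC) (hSHI : T_SHI) (hKRE : T_KRE) (hLIX : T_LIX)
    (hIXD : T_IXD) (hKSH : T_KSH) : T_PSH := by
  intro k _ _ _ B x y Ψ hy hd hg hf hΨ
  have hdk : 0 < dk k := (hIXD k).1
  have hdkR : (0 : ℝ) < dk k := by exact_mod_cast hdk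
  obtain ⟨hK1, hK2, hK3⟩ := hKRE
  -- the lattices
  have hix : ∀ c : ClassGroup (𝓞 k), (0 : ℝ) < ix (Lb (ci c) (B : Ideal (𝓞 k))) := by
    intro c
    have := (hLIX k (cr c) B).2.1
    exact_mod_cast Nat.pos_of_ne_zero this
  have hixn : ∀ c : ClassGroup (𝓞 k), ix (Lb (ci c) (B : Ideal (𝓞 k))) ≠ 0 :=
    fun c => (hLIX k (cr c) B).2.1
  let ι : ClassGroup (𝓞 k) → Type := fun c =>
    {u : V2 k // u ∈ Lb (ci c) (B : Ideal (𝓞 k)) ∧ u ∈ Fo k}
  let r : ∀ c, ι c → ℝ := fun c u => qp x y u.1 / ix (Lb (ci c) (B : Ideal (𝓞 k)))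
  have hqp : ∀ c (u : ι c), 0 < qp x y u.1 := by
    intro c u
    exact (hEZA k _ x y (hixn c) hy).1 u.1 u.2.2.1
  have hr : ∀ c (u : ι c), 0 < r c u := fun c u => div_pos (hqp c u) (hix c)
  let a : ∀ c, ι c → ℝ := fun c u => r c u / dk k
  have ha : ∀ c (u : ι c), 0 < a c u := fun c u => div_pos (hr c u) hdkR
  have hsum : ∀ c, Summable (fun u : ι c => (a c u) ^ (-2 : ℝ)) := by
    intro c
    have h := (hEZA k _ x y (hixn c) hy).2.2.1 2 (by norm_num)
    have h' := h.comp_injective (Subtype.val_injective (p := fun u : V2 k =>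
      u ∈ Lb (ci c) (B : Ideal (𝓞 k)) ∧ u ∈ Fo k))
    have h2 := h'.mul_right ((1 / (ix (Lb (ci c) (B : Ideal (𝓞 k))) * dk k) : ℝ) ^ (-2 : ℝ))
    refine h2.congr ?_
    intro u
    simp only [Function.comp]
    rw [if_pos u.2, ← Real.mul_rpow (hqp c u).le (by positivity)]
    congr 1
    simp only [a, r]
    rw [div_div, mul_one_div]
  -- the sums of the kernels
  let S : ClassGroup (𝓞 k) → ℝ → ℂ := fun c t =>
    ∑' u : ι c, ((a c u : ℝ) : ℂ) ^ (-(2 + t * Complex.I))
  have hSK : ∀ c, Summable (fun u : ι c => ‖Kc (dg k) (1 / 2) (a c u)‖) ∧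
      ∑' u : ι c, Kc (dg k) (1 / 2) (a c u) = ((1 / (2 * π) : ℝ) : ℂ) *
        ∫ t : ℝ, gG (2 + t * Complex.I) ^ dg k * S c t * W t := by
    intro c
    exact hSKC (dg k) (1 / 2) (ι c) (a c) (by norm_num) (by norm_num) (ha c) (hsum c)
  have hint : ∀ c, Integrable (fun t : ℝ => gG (2 + t * Complex.I) ^ dg k * S c t * W t) := by
    intro c
    obtain ⟨h1, h2⟩ := ser_cont (a c) (ha c) (hsum c)
    have h3 := (hKSH (dg k) (1 / 2) 1 2 (by norm_num) (by norm_num) (by norm_num) (by norm_num)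
      Complex.one_mem_slitPlane).1
    have h4 := h3.bdd_mul (h1.aestronglyMeasurable) (Filter.Eventually.of_forall h2)
    refine h4.congr (Filter.Eventually.of_forall ?_)
    intro t
    simp only [S, W, Complex.one_cpow, mul_one, Complex.ofReal_ofNat]
    ring
  -- the function on the line
  have hline : ∀ t : ℝ, Ψ (2 + t * Complex.I) * W t =
      ∑ c : ClassGroup (𝓞 k), gG (2 + t * Complex.I) ^ dg k * S c t * W t := by
    intro t
    rw [hΨ (2 + t * Complex.I) (by simp), Finset.mul_sum, Finset.sum_mul]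
    apply Finset.sum_congr rfl
    intro c _
    have hZ : (dk k : ℂ) ^ (2 + t * Complex.I) * Zd (Lb (ci c) (B : Ideal (𝓞 k))) x y
        (ix (Lb (ci c) (B : Ideal (𝓞 k))) : ℝ)⁻¹ (2 + t * Complex.I) = S c t := by
      rw [Zd, tsum_if, ← tsum_mul_left]
      apply tsum_congr
      intro u
      have e1 : a c u = ((ix (Lb (ci c) (B : Ideal (𝓞 k))) : ℝ)⁻¹ * qp x y u.1) *
          ((dk k : ℝ))⁻¹ := by
        simp only [a, r]
        rw [div_eq_mul_inv, div_eq_mul_inv, mul_comm (qp x y u.1)]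
      have e2 : (((dk k : ℝ)⁻¹ : ℝ) : ℂ) ^ (-(2 + t * Complex.I)) =
          (dk k : ℂ) ^ (2 + t * Complex.I) := by
        have harg : Complex.arg ((dk k : ℝ) : ℂ) ≠ π := by
          rw [Complex.arg_ofReal_of_nonneg hdkR.le]
          exact Real.pi_ne_zero.symm
        rw [Complex.ofReal_inv, Complex.inv_cpow _ _ harg, Complex.cpow_neg, inv_inv,
          Complex.ofReal_natCast]
      rw [e1, Complex.ofReal_mul ((ix (Lb (ci c) (B : Ideal (𝓞 k))) : ℝ)⁻¹ * qp x y u.1),
        Complex.mul_cpow_ofReal_nonneg (by have := hqp c u; have := hix c; positivity)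
          (by positivity), e2]
      ring
    rw [← hZ]
    ring
  have hint2 : (∫ t : ℝ, Ψ (2 + t * Complex.I) * W t) =
      ∑ c : ClassGroup (𝓞 k), ∫ t : ℝ, gG (2 + t * Complex.I) ^ dg k * S c t * W t := by
    rw [← integral_finsetSum _ (fun c _ => hint c)]
    exact integral_congr_ae (Filter.Eventually.of_forall hline)
  -- the shift
  have hshift : Ψ (1 / 2) = 2 * (((1 / (2 * π) : ℝ) : ℂ) *
      ∫ t : ℝ, Ψ (2 + t * Complex.I) * W t) := by
    have h := hSHI Ψ (1 / 2) hd hg (by norm_num) (by norm_num)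
    have h12 : (1 : ℂ) - 1 / 2 = 1 / 2 := by norm_num
    simp only [hf, h12] at h
    rw [← h]
    exact (two_mul _).symm
  have hker : ∀ c (u : ι c), 2 * Kc (dg k) (1 / 2) (a c u) = gG (1 / 2) ^ dg k *
      (dk k : ℂ) ^ (1 / 2 : ℂ) * ((2 * Vk k (r c u) / Real.sqrt (r c u) : ℝ) : ℂ) := by
    intro c u
    have h3 := hK3 k (r c u) (hr c u) hdk
    have hg0 : gG (1 / 2) ^ dg k ≠ 0 := by
      apply pow_ne_zero
      rw [hK1]
      have : (-(1 / (4 * Real.sqrt 2)) : ℝ) ≠ 0 := by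
        have : 0 < Real.sqrt 2 := by positivity
        have : 0 < 1 / (4 * Real.sqrt 2) := by positivity
        linarith
      exact_mod_cast this
    have hsr : (0 : ℝ) < Real.sqrt (r c u) := Real.sqrt_pos.mpr (hr c u)
    have hsd : (0 : ℝ) < Real.sqrt (dk k) := Real.sqrt_pos.mpr hdkR
    have hdc : (dk k : ℂ) ^ (1 / 2 : ℂ) = ((Real.sqrt (dk k) : ℝ) : ℂ) := by
      rw [Real.sqrt_eq_rpow, Complex.ofReal_cpow hdkR.le]
      norm_num
    have hsq : Real.sqrt (r c u / dk k) = Real.sqrt (r c u) / Real.sqrt (dk k) :=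
      Real.sqrt_div (hr c u).le _
    have hsr' : ((Real.sqrt (r c u) : ℝ) : ℂ) ≠ 0 := by exact_mod_cast hsr.ne'
    have hsd' : ((Real.sqrt (dk k) : ℝ) : ℂ) ≠ 0 := by exact_mod_cast hsd.ne'
    have e3 : ((2 * Vk k (r c u) / Real.sqrt (r c u) : ℝ) : ℂ) =
        2 * ((Real.sqrt (r c u) : ℝ) : ℂ) / ((Real.sqrt (dk k) : ℝ) : ℂ) *
          (Kc (dg k) (1 / 2) ((r c u / dk k : ℝ) : ℂ) / gG (1 / 2) ^ dg k) /
            ((Real.sqrt (r c u) : ℝ) : ℂ) := by
      rw [Complex.ofReal_div (2 * Vk k (r c u)), Complex.ofReal_mul 2 (Vk k (r c u)), h3, hsq,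
        Complex.ofReal_div (Real.sqrt (r c u)), Complex.ofReal_ofNat]
      ring
    rw [e3, hdc]
    generalize hKg : Kc (dg k) (1 / 2) ((r c u / dk k : ℝ) : ℂ) = K
    field_simp
  rw [hshift, hint2, Finset.mul_sum, Finset.mul_sum, ze, Complex.ofReal_sum, Finset.mul_sum]
  apply Finset.sum_congr rfl
  intro c _
  rw [← (hSK c).2, ← tsum_mul_left]
  rw [tsum_if', Complex.ofReal_tsum, ← tsum_mul_left]
  apply tsum_congr
  intro u
  exact hker c u

end Pool.Agent.H42.NVE_PSH
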